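import Pool.Agent.H53.GM.Targets3

/-!
# Components of a finite structure
-/

set_option autoImplicit false
set_option linter.unusedVariables false

namespace Pool.Agent.H86.GM

open Pool.Agent.H68.BP Pool.Agent.H58.SF Pool.Agent.H53.GC Pool.Agent.H53.GR Pool.Agent.H53.GM
open Classical

theorem CMP_lt (n : ℕ) (S : Set (Fin n)) (hS : S ≠ Set.univ) :
    ∃ k, k < n ∧ Nonempty (Fin k ≃ S) := by
  obtain ⟨b, hb⟩ := (Set.ne_univ_iff_exists_notMem S).1 hS
  have h := Fintype.card_lt_of_injective_of_notMem (Subtype.val : S → Fin n)
    Subtype.val_injective (b := b) (by simpa using hb)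
  exact ⟨Fintype.card S, by simpa using h, ⟨(Fintype.equivFin S).symm⟩⟩

theorem pf_CMP : Pool.Agent.H53.GM.T_CMP := by
  intro τ n
  induction n using Nat.strong_induction_on with
  | _ n ih =>
    intro D har
    by_cases hD : Connected D
    · refine ⟨[⟨n, D⟩], ?_, ?_⟩
      · intro C hC
        rw [List.mem_singleton] at hC
        subst hC
        exact hD
      · intro W M
        constructor
        · intro h C hC
          rw [List.mem_singleton] at hC
          subst hC
          exact h
        · intro h
          exact h ⟨n, D⟩ (List.mem_singleton.2 rfl)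
    · obtain ⟨S, hS'⟩ := not_forall.1 hD
      obtain ⟨hS, hS2⟩ := Classical.not_imp.1 hS'
      have hS0 : S ≠ ∅ := fun h => hS2 (Or.inl h)
      have hS1 : S ≠ Set.univ := fun h => hS2 (Or.inr h)
      have hS0' : Sᶜ ≠ Set.univ := by
        intro h
        exact hS0 (Set.compl_univ_iff.1 h)
      obtain ⟨k, hk, ⟨e⟩⟩ := CMP_lt n S hS1
      obtain ⟨k', hk', ⟨e'⟩⟩ := CMP_lt n Sᶜ hS0'
      obtain ⟨L, hL1, hL2⟩ := ih k hk (fun l z => D l (fun i => (e (z i)).1)) har
      obtain ⟨L', hL1', hL2'⟩ := ih k' hk' (fun l z => D l (fun i => (e' (z i)).1)) har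
      refine ⟨L ++ L', ?_, ?_⟩
      · intro C hC
        rcases List.mem_append.1 hC with h | h
        · exact hL1 C h
        · exact hL1' C h
      · intro W M
        constructor
        · rintro ⟨f, hf⟩ C hC
          rcases List.mem_append.1 hC with h | h
          · exact (hL2 W M).1 ⟨fun x => f (e x).1, fun l z hz => hf l _ hz⟩ C h
          · exact (hL2' W M).1 ⟨fun x => f (e' x).1, fun l z hz => hf l _ hz⟩ C h
        · intro h
          obtain ⟨f, hf⟩ := (hL2 W M).2 fun C hC => h C (List.mem_append_left _ hC)
          obtain ⟨f', hf'⟩ := (hL2' W M).2 fun C hC => h C (List.mem_append_right _ hC)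
          refine ⟨fun x => if hx : x ∈ S then f (e.symm ⟨x, hx⟩) else f' (e'.symm ⟨x, hx⟩), ?_⟩
          intro l z hz
          rcases hS l z hz with h1 | h1
          · have h2 := hf l (fun i => e.symm ⟨z i, h1 i⟩) (by
              simp only [Equiv.apply_symm_apply]
              exact hz)
            have h3 : (fun i => if hx : z i ∈ S then f (e.symm ⟨z i, hx⟩) else
                f' (e'.symm ⟨z i, hx⟩)) = fun i => f (e.symm ⟨z i, h1 i⟩) := by
              funext i
              rw [dif_pos (h1 i)]
            change M l (fun i => if hx : z i ∈ S then f (e.symm ⟨z i, hx⟩) else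
                f' (e'.symm ⟨z i, hx⟩))
            rw [h3]
            exact h2
          · have h2 := hf' l (fun i => e'.symm ⟨z i, h1 i⟩) (by
              simp only [Equiv.apply_symm_apply]
              exact hz)
            have h3 : (fun i => if hx : z i ∈ S then f (e.symm ⟨z i, hx⟩) else
                f' (e'.symm ⟨z i, hx⟩)) = fun i => f' (e'.symm ⟨z i, h1 i⟩) := by
              funext i
              rw [dif_neg (h1 i)]
            change M l (fun i => if hx : z i ∈ S then f (e.symm ⟨z i, hx⟩) else
                f' (e'.symm ⟨z i, hx⟩))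
            rw [h3]
            exact h2

end Pool.Agent.H86.GM
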