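import Pool.Agent.H53.GM.Targets2

/-!
# Disjoint unions of good systems
-/

set_option autoImplicit false
set_option linter.unusedVariables false

namespace Pool.Agent.H86.GM

open Pool.Agent.H68.BP Pool.Agent.H58.SF Pool.Agent.H53.GC Pool.Agent.H53.GR Pool.Agent.H53.GM
open Classical

theorem DSU_rr {Q 𝒦 W : Type} (C : Sy Q 𝒦 W) (A B : Set W) :
    Hm ((C.res A).res B) (C.res B) (fun x => x) := by
  intro g κ hg
  have h : g.image (fun x => x) = g := Finset.image_id'
  rw [h]
  exact ⟨⟨hg.1.1, hg.2⟩, fun x _ => rfl⟩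

theorem DSU_un {Q 𝒦 W : Type} (C : Sy Q 𝒦 W) (U : Set W) (hU : ∀ x, x ∈ U) :
    Hm C (C.res U) (fun x => x) := by
  intro g κ hg
  have h : g.image (fun x => x) = g := Finset.image_id'
  rw [h]
  exact ⟨⟨hg, fun x _ => hU x⟩, fun x _ => rfl⟩

theorem pf_DSU : Pool.Agent.H53.GM.T_DSU := by
  intro Q 𝒦 K N G hG R W _ _ _ C κ₀ hC hκ₀ hsep hgood
  have key : ∀ T : Finset R, T.Nonempty → G (R × W) (C.res {x | x.1 ∈ T}) := by
    intro T hT
    induction hT using Finset.Nonempty.cons_induction with
    | singleton r =>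
      have h : ({x : R × W | x.1 ∈ ({r} : Finset R)}) = {x | x.1 = r} := by
        ext x
        simp
      rw [h]
      exact hgood r
    | cons r T hr hT ih =>
      refine hG.g3 _ (C.res _) {x | x.1 = r} {x | x.1 ∈ T} ∅ κ₀ (hC.res _)
        ⟨hκ₀, by simp⟩ ?_ ?_ ?_ ?_
      · intro x
        constructor
        · intro h
          simp at h
        · rintro ⟨h1, h2⟩
          have h1' : x.1 = r := h1
          have h2' : x.1 ∈ T := h2
          rw [h1'] at h2'
          exact absurd h2' hr
      · intro g κ hg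
        obtain ⟨r', hr'⟩ := hsep g κ hg.1
        by_cases h : r' = r
        · left
          intro x hx
          change x.1 = r
          rw [hr' x hx, h]
        · right
          intro x hx
          have h3 : x.1 ∈ Finset.cons r T hr := hg.2 x hx
          rw [Finset.mem_cons] at h3
          rcases h3 with h3 | h3
          · exact absurd ((hr' x hx).symm.trans h3) h
          · exact h3
      · exact hG.g1 _ _ _ _ _ (DSU_rr C _ _) (hgood r)
      · exact hG.g1 _ _ _ _ _ (DSU_rr C _ _) ih
  have := Fintype.ofFinite R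
  have h1 := key Finset.univ Finset.univ_nonempty
  exact hG.g1 _ _ _ _ _ (DSU_un C _ fun x => Finset.mem_univ x.1) h1

end Pool.Agent.H86.GM
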