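import Pool.Agent.H53.GM.Targets2

/-!
# The Ramsey theorem without goodness
-/

set_option autoImplicit false
set_option linter.unusedVariables false

namespace Pool.Agent.H86.GM

open Pool.Agent.H68.BP Pool.Agent.H58.SF Pool.Agent.H53.GC Pool.Agent.H53.GR Pool.Agent.H53.GM
open Classical

theorem RM0_it (hPL : Pool.Agent.H53.GM.T_PL) (Q 𝒦 : Type) (K : Cls Q 𝒦) (Y : Type) [Finite Y] :
    ∀ (ls : List (Finset Q × 𝒦)) (P : Type) [Finite P] (C : Sy Q 𝒦 P), IsSys K C →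
    ∃ (P' : Type) (_ : Finite P') (C' : Sy Q 𝒦 P'), IsSys K C' ∧
      (∀ G κ, C'.gd G κ → ∃ g, C.gd g κ ∧ g.image C.pt = G.image C'.pt) ∧
      ∀ χ : Finset P' → Y, ∃ φ : P → P', Hm C C' φ ∧
        ∀ p ∈ ls, ∀ g g', C.gd g p.2 → C.gd g' p.2 → g.image C.pt = p.1 →
          g'.image C.pt = p.1 → χ (g.image φ) = χ (g'.image φ) := by
  intro ls
  induction ls with
  | nil =>
    intro P _ C hC
    refine ⟨P, inferInstance, C, hC, fun G κ hG => ⟨G, hG, rfl⟩, fun χ => ⟨fun x => x,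
      Hm.refl C, ?_⟩⟩
    intro p hp
    exact absurd hp List.not_mem_nil
  | cons p ls ih =>
    intro P _ C hC
    obtain ⟨P₁, hP₁, C₁, hC₁, hb₁, hr₁, -⟩ := hPL Q 𝒦 K P Y C p.1 p.2 hC
    obtain ⟨P', hP', C', hC', hb', hr'⟩ := ih P₁ C₁ hC₁
    refine ⟨P', hP', C', hC', ?_, ?_⟩
    · intro G κ hG
      obtain ⟨g₁, h1, h2⟩ := hb' G κ hG
      obtain ⟨g, h3, h4⟩ := hb₁ g₁ κ h1
      exact ⟨g, h3, h4.trans h2⟩
    · intro χ
      obtain ⟨φ₂, hφ₂, hc₂⟩ := hr' χ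
      obtain ⟨φ₁, hφ₁, hc₁⟩ := hr₁ (fun S => χ (S.image φ₂))
      refine ⟨fun x => φ₂ (φ₁ x), hφ₁.comp hφ₂, ?_⟩
      have him : ∀ g : Finset P, g.image (fun x => φ₂ (φ₁ x)) = (g.image φ₁).image φ₂ := by
        intro g
        rw [Finset.image_image]
        rfl
      intro p' hp' g g' hg hg' hgp hgp'
      rw [him, him]
      rcases List.mem_cons.mp hp' with h | h
      · subst h
        exact hc₁ g g' hg hg' hgp hgp'
      · refine hc₂ p' h _ _ (hφ₁ g _ hg).1 (hφ₁ g' _ hg').1 ?_ ?_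
        · rw [hφ₁.image_pt hg, hgp]
        · rw [hφ₁.image_pt hg', hgp']

theorem pf_RM0 (hPL : Pool.Agent.H53.GM.T_PL) : Pool.Agent.H53.GM.T_RM0 := by
  intro Q 𝒦 _ _ K W₀ Y _ _ C₀ hC₀
  have : Finite (Finset Q × 𝒦) := inferInstance
  have := Fintype.ofFinite (Finset Q × 𝒦)
  obtain ⟨W, hW, E, hE, hb, hr⟩ := RM0_it hPL Q 𝒦 K Y
    (Finset.univ : Finset (Finset Q × 𝒦)).toList W₀ C₀ hC₀
  refine ⟨W, hW, E, hE, hb, ?_⟩
  intro χ
  obtain ⟨φ, hφ, hc⟩ := hr χ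
  refine ⟨φ, fun α κ => if h : ∃ g, C₀.gd g κ ∧ g.image C₀.pt = α then χ (h.choose.image φ)
    else χ ∅, hφ, ?_⟩
  intro g κ hg
  have h : ∃ g', C₀.gd g' κ ∧ g'.image C₀.pt = g.image C₀.pt := ⟨g, hg, rfl⟩
  beta_reduce
  rw [dif_pos h]
  exact hc (g.image C₀.pt, κ) (by simp) g h.choose hg h.choose_spec.1 rfl h.choose_spec.2

end Pool.Agent.H86.GM
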